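import Pool.Agent.Q62.CC.Stm

/-! # Project CC (helper62), job CC-22: the identity for the flat family -/

set_option autoImplicit false

open Set Filter Topology

namespace Pool.Agent.Q208.CC

open Pool.Agent.Q62.CC

/-- summability of the power series -/
lemma sm {u : ℕ → ℝ} {c M y z : ℝ}
    (hu : ∀ k, |u k| ≤ c * (M ^ k * y ^ (2 * k)) / (k.factorial : ℝ)) :
    Summable fun k => ‖u k * z ^ k‖ := by
  have h1 : Summable fun k : ℕ => c * ((M * y ^ 2 * |z|) ^ k / (k.factorial : ℝ)) :=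
    (Real.summable_pow_div_factorial _).mul_left c
  refine Summable.of_nonneg_of_le (fun k => norm_nonneg _) (fun k => ?_) h1
  rw [norm_mul, norm_pow, Real.norm_eq_abs, Real.norm_eq_abs]
  calc |u k| * |z| ^ k ≤ c * (M ^ k * y ^ (2 * k)) / (k.factorial : ℝ) * |z| ^ k :=
        mul_le_mul_of_nonneg_right (hu k) (by positivity)
    _ = c * ((M * y ^ 2 * |z|) ^ k / (k.factorial : ℝ)) := by
        rw [mul_pow, mul_pow, ← pow_mul]; ring

/-- the Cauchy product -/
lemma key {a b p q : ℕ → ℝ} {z : ℝ} (ha : Summable fun k => ‖a (k + 1) * z ^ k‖)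
    (hb : Summable fun k => ‖b k * z ^ k‖) (hp : Summable fun k => ‖p (k + 1) * z ^ k‖)
    (hq : Summable fun k => ‖q k * z ^ k‖) :
    z * ∑' k, (∑ j ∈ Finset.range (k + 1), (a (k - j + 1) * q j - b (k - j) * p (j + 1))) * z ^ k =
      (∑' k, a k * z ^ k - a 0) * ∑' k, q k * z ^ k -
        (∑' k, b k * z ^ k) * (∑' k, p k * z ^ k - p 0) := by
  have shift : ∀ u : ℕ → ℝ, (Summable fun k => ‖u (k + 1) * z ^ k‖) →
      ∑' k, u k * z ^ k - u 0 = z * ∑' k, u (k + 1) * z ^ k := by
    intro u hu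
    have h1 : Summable fun k => u (k + 1) * z ^ (k + 1) := by
      have h2 := hu.of_norm.mul_left z
      refine h2.congr fun k => ?_
      ring
    have h3 : Summable fun k => u k * z ^ k := (summable_nat_add_iff 1).1 h1
    rw [h3.tsum_eq_zero_add, ← tsum_mul_left, pow_zero, mul_one, add_sub_cancel_left]
    exact tsum_congr fun k => by ring
  have e1 := tsum_mul_tsum_eq_tsum_sum_range_of_summable_norm hq ha
  have e2 := tsum_mul_tsum_eq_tsum_sum_range_of_summable_norm hp hb
  have s1 := (summable_norm_sum_mul_range_of_summable_norm hq ha).of_norm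
  have s2 := (summable_norm_sum_mul_range_of_summable_norm hp hb).of_norm
  have e3 : ∑' k, (∑ j ∈ Finset.range (k + 1), (a (k - j + 1) * q j - b (k - j) * p (j + 1))) * z ^ k =
      (∑' k, q k * z ^ k) * (∑' k, a (k + 1) * z ^ k) -
        (∑' k, p (k + 1) * z ^ k) * ∑' k, b k * z ^ k := by
    rw [e1, e2, ← s1.tsum_sub s2]
    refine tsum_congr fun k => ?_
    rw [Finset.sum_mul, ← Finset.sum_sub_distrib]
    refine Finset.sum_congr rfl fun j hj => ?_
    have hjk : j ≤ k := Nat.lt_succ_iff.1 (Finset.mem_range.1 hj)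
    have hz : z ^ k = z ^ j * z ^ (k - j) := by
      rw [← pow_add, Nat.add_sub_cancel' hjk]
    rw [hz]
    ring
  rw [e3, shift a ha, shift p hp]
  ring

/-- JOB CC-22 -/
theorem t_VVS (hp1 : S_BND) : S_VVS := by
  intro m x₀ x₁ α β M c hW z x hx
  have hβ : β ∈ Ioo x₀ x₁ := ⟨hW.h0.trans hW.hab, hW.h1⟩
  have hM : 0 ≤ M := (hW.pos β hβ).le.trans (hW.le β hβ)
  have fac : ∀ {A : ℝ} {k n : ℕ}, 0 ≤ A → k ≤ n → A / (n.factorial : ℝ) ≤ A / (k.factorial : ℝ) := by
    intro A k n hA hkn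
    refine div_le_div_of_nonneg_left hA (by positivity) ?_
    exact_mod_cast Nat.factorial_le hkn
  -- summability
  have s1 : ∀ y ∈ Ioo x₀ x₁, Summable fun k => ‖cf m α (k + 1) y * z ^ k‖ := by
    intro y hy
    refine sm (c := M * |y - α| ^ 2) (M := M) (y := |y - α|) fun k => ?_
    refine ((hp1 m x₀ x₁ α β M c hW (k + 1) y hy).1).trans ?_
    refine (fac (by positivity) (by omega : k ≤ 2 * (k + 1))).trans (le_of_eq ?_)
    congr 1
    rw [show 2 * (k + 1) = 2 * k + 2 by ring, pow_add, pow_succ M]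
    ring
  have s2 : ∀ y ∈ Ioo x₀ x₁, Summable fun k => ‖sf m α k y * z ^ k‖ := by
    intro y hy
    refine sm (c := |y - α|) (M := M) (y := |y - α|) fun k => ?_
    refine ((hp1 m x₀ x₁ α β M c hW k y hy).2.1).trans ?_
    refine (fac (by positivity) (by omega : k ≤ 2 * k + 1)).trans (le_of_eq ?_)
    congr 1
    rw [pow_succ |y - α|]
    ring
  have s3 : ∀ y ∈ Ioo x₀ x₁, Summable fun k => ‖cd m α (k + 1) y * z ^ k‖ := by
    intro y hy
    refine sm (c := M * |y - α|) (M := M) (y := |y - α|) fun k => ?_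
    refine ((hp1 m x₀ x₁ α β M c hW k y hy).2.2.1).trans ?_
    refine (fac (by positivity) (by omega : k ≤ 2 * k + 1)).trans (le_of_eq ?_)
    congr 1
    rw [pow_succ |y - α|, pow_succ M]
    ring
  have s4 : ∀ y ∈ Ioo x₀ x₁, Summable fun k => ‖sd m α k y * z ^ k‖ := by
    intro y hy
    refine sm (c := 1) (M := M) (y := |y - α|) fun k => ?_
    refine ((hp1 m x₀ x₁ α β M c hW k y hy).2.2.2).trans ?_
    refine (fac (by positivity) (by omega : k ≤ 2 * k)).trans (le_of_eq ?_)
    rw [one_mul]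
  constructor
  · have h := key (a := fun k => cf m α k β) (b := fun k => sf m α k β) (p := fun k => cf m α k x)
      (q := fun k => sf m α k x) (s1 β hβ) (s2 β hβ) (s1 x hx) (s2 x hx)
    have h1 : cf m α 0 β = 1 := rfl
    have h2 : cf m α 0 x = 1 := rfl
    rw [h1, h2] at h
    unfold Vz Sz Cz vv
    rw [h]
    ring
  · have h := key (a := fun k => cf m α k β) (b := fun k => sf m α k β) (p := fun k => cd m α k x)
      (q := fun k => sd m α k x) (s1 β hβ) (s2 β hβ) (s3 x hx) (s4 x hx)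
    have h1 : cf m α 0 β = 1 := rfl
    have h2 : cd m α 0 x = 0 := rfl
    rw [h1, h2] at h
    unfold Vdz Sz Cz Cdz Sdz vd
    rw [h]
    ring

end Pool.Agent.Q208.CC
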